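import Pool.Agent.helper36.YB.Spec

/-!
# Project yb (MP_ad8ced_nt), row CTX (helper16, after CHT of helper89)
-/

set_option autoImplicit false

open Finset
open Pool.Agent.FI Pool.Agent.HK Pool.Agent.BP
open Pool.Agent.CH (nit rgh ll2)
open Pool.Agent.SK (tr0 Th)

noncomputable section

namespace Pool.Agent.YB

private theorem CTX_big (C : ℝ) (hC : 0 < C) (k : ℕ) : ∃ v₀ : ℝ, 1 ≤ v₀ ∧ ∀ v : ℝ, v₀ ≤ v →
    C * Real.log v ^ k * (3 + Real.log v) ≤ v ^ (1 / 4 : ℝ) := by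
  have h1 := isLittleO_log_rpow_rpow_atTop ((k + 1 : ℕ) : ℝ) (show (0 : ℝ) < 1 / 4 by norm_num)
  have h2 := h1.bound (show (0 : ℝ) < 1 / (2 * C) by positivity)
  obtain ⟨a, ha⟩ := Filter.eventually_atTop.1 h2
  refine ⟨max (max a 1) (Real.exp 3), (le_max_right a 1).trans (le_max_left _ _), ?_⟩
  intro v hv
  have hva : a ≤ v := ((le_max_left _ _).trans (le_max_left _ _)).trans hv
  have hv1 : 1 ≤ v := ((le_max_right _ _).trans (le_max_left _ _)).trans hv
  have hv3 : Real.exp 3 ≤ v := (le_max_right _ _).trans hv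
  have hv0 : 0 < v := by linarith
  have hl3 : 3 ≤ Real.log v := (Real.le_log_iff_exp_le hv0).2 hv3
  have h3 := ha v hva
  rw [Real.rpow_natCast, Real.norm_of_nonneg (by positivity), Real.norm_of_nonneg (by positivity)] at h3
  have h4 : 2 * C * Real.log v ^ (k + 1) ≤ v ^ (1 / 4 : ℝ) := by
    calc 2 * C * Real.log v ^ (k + 1) ≤ 2 * C * (1 / (2 * C) * v ^ (1 / 4 : ℝ)) :=
          mul_le_mul_of_nonneg_left h3 (by positivity)
      _ = v ^ (1 / 4 : ℝ) := by field_simp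
  refine le_trans ?_ h4
  calc C * Real.log v ^ k * (3 + Real.log v) ≤ C * Real.log v ^ k * (2 * Real.log v) :=
        mul_le_mul_of_nonneg_left (by linarith) (by positivity)
    _ = 2 * C * Real.log v ^ (k + 1) := by ring

private theorem CTX_s8 : (2 : ℝ) < √8 ∧ √8 < 4 := by
  constructor
  · rw [Real.lt_sqrt (by norm_num)]
    norm_num
  · rw [Real.sqrt_lt' (by norm_num)]
    norm_num

/-- `s1 = 1` on the fundamental domain -/
private theorem CTX_s1 (z : ℤ × ℤ) (hz : Fd z) : s1 z = 1 := by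
  obtain ⟨h8, h8'⟩ := CTX_s8
  unfold s1
  rw [if_pos]
  rcases hz.2 with h | h
  · have h1 : (4 : ℝ) * |(z.2 : ℝ)| < z.1 := by exact_mod_cast h
    have h2 : -|(z.2 : ℝ)| ≤ z.2 := neg_abs_le _
    have h3 : 0 ≤ |(z.2 : ℝ)| := abs_nonneg _
    nlinarith
  · have h1 : |(z.1 : ℝ)| < 2 * z.2 := by exact_mod_cast h
    have h2 : -|(z.1 : ℝ)| ≤ z.1 := neg_abs_le _
    have h3 : 0 ≤ |(z.1 : ℝ)| := abs_nonneg _
    nlinarith

private theorem CTX_N8_mul (z w : ℤ × ℤ) : N8 (mul8 z w) = N8 z * N8 w := by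
  unfold N8 mul8
  ring

private theorem CTX_nn_mul (z w : ℤ × ℤ) : nn (mul8 z w) = nn z * nn w := by
  unfold nn
  rw [CTX_N8_mul, Int.natAbs_mul]

private theorem CTX_even (z : ℤ × ℤ) (h : z.1 % 2 = 0) : 2 ∣ nn z := by
  unfold nn
  rw [← Int.natCast_dvd_natCast, Int.dvd_natAbs]
  obtain ⟨k, hk⟩ := Int.dvd_of_emod_eq_zero h
  refine ⟨2 * k ^ 2 - 4 * z.2 ^ 2, ?_⟩
  unfold N8
  rw [hk]
  push_cast
  ring

private theorem CTX_odd (z : ℤ × ℤ) (h : z.1 % 2 = 1) : Odd (nn z) := by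
  unfold nn
  rw [Int.natAbs_odd]
  unfold N8
  have h1 : Odd z.1 := Int.odd_iff.2 h
  have h2 : Even (8 * z.2 ^ 2) := ⟨4 * z.2 ^ 2, by ring⟩
  exact (h1.pow).sub_even h2

open scoped Classical in
/-- the principal character modulo `d` -/
private def CTX_p (d : ℕ) (z : ℤ × ℤ) : ℂ := if Nat.Coprime (nn z) d then 1 else 0

private theorem CTX_cop {d : ℕ} {z w : ℤ × ℤ} (h1 : (d : ℤ) ∣ z.1 - w.1) (h2 : (d : ℤ) ∣ z.2 - w.2) (h : Nat.Coprime (nn z) d) : Nat.Coprime (nn w) d := by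
  have h3 : (d : ℤ) ∣ N8 z - N8 w := by
    obtain ⟨a, ha⟩ := h1
    obtain ⟨b, hb⟩ := h2
    refine ⟨a * (z.1 + w.1) - 8 * b * (z.2 + w.2), ?_⟩
    unfold N8
    linear_combination (z.1 + w.1) * ha - 8 * (z.2 + w.2) * hb
  have h4 : IsCoprime (N8 z) (d : ℤ) := by
    rw [Int.isCoprime_iff_gcd_eq_one, Int.gcd_def, Int.natAbs_natCast]
    exact h
  have h5 : IsCoprime (N8 w) (d : ℤ) := by
    obtain ⟨k, hk⟩ := h3
    have h6 : N8 w = N8 z + (d : ℤ) * (-k) := by linear_combination -hk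
    rw [h6]
    exact IsCoprime.add_mul_left_left h4 (-k)
  rw [Int.isCoprime_iff_gcd_eq_one, Int.gcd_def, Int.natAbs_natCast] at h5
  exact h5

private theorem CTX_isrc (d : ℕ) : IsRC d (CTX_p d) := by
  refine ⟨fun z w => ?_, fun z w h1 h2 => ?_, fun z hz => ?_, fun z hz => ?_, fun t ht => ?_⟩
  · unfold CTX_p
    rw [CTX_nn_mul]
    by_cases h1 : Nat.Coprime (nn z) d
    · by_cases h2 : Nat.Coprime (nn w) d
      · rw [if_pos (Nat.Coprime.mul_left h1 h2), if_pos h1, if_pos h2, mul_one]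
      · rw [if_neg (fun h => h2 (Nat.Coprime.coprime_mul_left h)), if_neg h2, mul_zero]
    · rw [if_neg (fun h => h1 (Nat.Coprime.coprime_mul_right h)), if_neg h1, zero_mul]
  · unfold CTX_p
    have h3 : Nat.Coprime (nn z) d ↔ Nat.Coprime (nn w) d :=
      ⟨CTX_cop h1 h2, CTX_cop (by rw [← neg_sub]; exact (dvd_neg).2 h1) (by rw [← neg_sub]; exact (dvd_neg).2 h2)⟩
    simp only [h3]
  · unfold CTX_p
    rw [if_neg hz]
  · unfold CTX_p
    rw [if_pos hz, norm_one]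
  · unfold CTX_p
    rw [if_pos]
    have h1 : nn (t, 0) = t.natAbs * t.natAbs := by
      unfold nn N8
      rw [← Int.natAbs_mul]
      congr 1
      ring
    rw [h1]
    have h2 : Nat.Coprime t.natAbs d := by
      rw [Int.isCoprime_iff_gcd_eq_one, Int.gcd_def, Int.natAbs_natCast] at ht
      exact ht
    exact Nat.Coprime.mul_left h2 h2

theorem CTX (hCHX : CHX_stmt) (hSMX : SMX_stmt) (hMZX : MZX_stmt) (hSMB : BP.SMB_stmt) : CTX_stmt := by
  intro A B K
  obtain ⟨x₁, hx₁⟩ := hCHX A B K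
  obtain ⟨C₁, hC₁, h₁⟩ := hSMX
  obtain ⟨C₂, hC₂, h₂⟩ := hSMB
  obtain ⟨v₀, hv₀, hbig⟩ := CTX_big (C₁ + C₂) (by positivity) (6 * B + 2 * A)
  have ht : Filter.Tendsto CH.dl Filter.atTop Filter.atTop :=
    (tendsto_rpow_atTop (show (0 : ℝ) < 19 / 20 by norm_num)).comp Real.tendsto_log_atTop
  obtain ⟨x₂, hx₂⟩ := Filter.eventually_atTop.1 (ht.eventually_ge_atTop (Real.log v₀))
  refine ⟨max (max x₁ x₂) (Real.exp 1), ?_⟩
  intro x hx q hqB ξ hξ i₁ i κ τ hU hor hκ hτ v hv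
  have hxx₁ : x₁ ≤ x := ((le_max_left _ _).trans (le_max_left _ _)).trans hx
  have hxx₂ : x₂ ≤ x := ((le_max_right _ _).trans (le_max_left _ _)).trans hx
  have hxe : Real.exp 1 ≤ x := (le_max_right _ _).trans hx
  obtain ⟨hq2, hq0, hmul, hper, hz0, hz1⟩ := id hξ
  have hle : ∀ z, ‖ξ z‖ ≤ 1 := by
    intro z
    by_cases h : Nat.Coprime (nn z) q
    · rw [hz1 z h]
    · rw [hz0 z h, norm_zero]
      exact zero_le_one
  have hFd : ∀ z ∈ FF v, Fd z := by
    intro z hz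
    unfold FF at hz
    simp only [Finset.mem_filter] at hz
    exact hz.2.1
  have hsum : ∑ z ∈ FF v, HX ξ i₁ i κ z * nit τ (nn z) =
      ∑ z ∈ FF v, ξ z * (((N8 z).sign : ℂ) ^ i * Complex.exp (κ * yy z * Complex.I)) * nit τ (nn z) := by
    refine Finset.sum_congr rfl fun z hz => ?_
    unfold HX
    rw [CTX_s1 z (hFd z hz), one_pow]
    ring
  rw [hsum]
  by_cases hcase : (v : ℝ) ^ (1 / 4 : ℝ) ≤ max |κ + τ| |τ - κ|
  · exact hx₁ x hxx₁ q hq0 hqB ξ hle hper i κ τ hκ hτ v hv hcase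
  · have hx0 : 0 < x := lt_of_lt_of_le (Real.exp_pos 1) hxe
    have hL1 : 1 ≤ Real.log x := (Real.le_log_iff_exp_le hx0).2 hxe
    have hvpos : (0 : ℝ) < v := lt_of_lt_of_le (Real.exp_pos _) hv
    have hvv₀ : v₀ ≤ v := by
      calc v₀ = Real.exp (Real.log v₀) := (Real.exp_log (by linarith)).symm
        _ ≤ Real.exp (CH.dl x) := Real.exp_le_exp.2 (hx₂ x hxx₂)
        _ ≤ v := hv
    have hv1 : (1 : ℝ) ≤ v := hv₀.trans hvv₀
    have hdl : CH.dl x ≤ Real.log v := (Real.le_log_iff_exp_le hvpos).2 hv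
    have hdl1 : 1 ≤ CH.dl x := Real.one_le_rpow hL1 (by norm_num)
    have hlv1 : 1 ≤ Real.log v := hdl1.trans hdl
    have hLdl : Real.log x ≤ Real.log v ^ 2 := by
      have h1 : Real.log x ≤ CH.dl x ^ 2 := by
        unfold CH.dl
        rw [← Real.rpow_natCast, ← Real.rpow_mul (by linarith)]
        calc Real.log x = Real.log x ^ (1 : ℝ) := (Real.rpow_one _).symm
          _ ≤ _ := Real.rpow_le_rpow_of_exponent_le hL1 (by norm_num)
      exact h1.trans (pow_le_pow_left₀ (by linarith) hdl 2)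
    have hq0' : 0 ≤ (v : ℝ) ^ (1 / 4 : ℝ) := Real.rpow_nonneg hvpos.le _
    have hq1 : 1 ≤ (v : ℝ) ^ (1 / 4 : ℝ) := Real.one_le_rpow hv1 (by norm_num)
    rw [not_le, max_lt_iff, abs_lt, abs_lt] at hcase
    have hκ' : |κ| ≤ (v : ℝ) ^ (1 / 4 : ℝ) := by
      rw [abs_le]
      constructor <;> linarith [hcase.1.1, hcase.1.2, hcase.2.1, hcase.2.2]
    have hτ' : |τ| ≤ (v : ℝ) ^ (1 / 4 : ℝ) := by
      rw [abs_le]
      constructor <;> linarith [hcase.1.1, hcase.1.2, hcase.2.1, hcase.2.2]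
    have hbd : ‖∑ z ∈ FF v, ξ z * (((N8 z).sign : ℂ) ^ i * Complex.exp (κ * yy z * Complex.I)) * nit τ (nn z)‖ ≤
        (C₁ + C₂) * (q : ℝ) ^ 3 * (1 + |κ| + |τ| * (1 + Real.log v)) * √(v : ℝ) := by
      have hnn : 0 ≤ (1 + |κ| + |τ| * (1 + Real.log v)) * √(v : ℝ) := by positivity
      have hq3 : 0 ≤ (q : ℝ) ^ 3 := by positivity
      by_cases hc : NPr q ξ
      · have hev : ∀ z : ℤ × ℤ, z.1 % 2 = 0 → ξ z = 0 := by
          intro z hz
          refine hz0 z fun h => ?_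
          have h3 := Nat.dvd_gcd (CTX_even z hz) hq2
          rw [h] at h3
          omega
        refine (h₁ q hq0 ξ hle hper hev (hMZX q ξ hξ hc) i κ τ v).trans ?_
        have h3 : 0 ≤ C₂ * (q : ℝ) ^ 3 * ((1 + |κ| + |τ| * (1 + Real.log v)) * √(v : ℝ)) := by positivity
        nlinarith
      · have hκ0 : κ ≠ 0 := hor.resolve_left hc
        have hone : ∀ z, Nat.Coprime (nn z) q → ξ z = 1 := by
          intro z hz
          by_contra hne
          exact hc ⟨z, hz, hne⟩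
        obtain ⟨e, d, hd, hqd⟩ := Nat.exists_eq_two_pow_mul_odd hq0.ne'
        have hdq : (d : ℝ) ≤ q := by
          have h3 : d ≤ q := by
            rw [hqd]
            exact Nat.le_mul_of_pos_left d (by positivity)
          exact_mod_cast h3
        have hcop : ∀ z : ℤ × ℤ, z.1 % 2 = 1 → (Nat.Coprime (nn z) q ↔ Nat.Coprime (nn z) d) := by
          intro z hz
          rw [hqd]
          constructor
          · exact fun h => Nat.Coprime.coprime_mul_left_right h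
          · intro h
            refine Nat.Coprime.mul_right ?_ h
            exact Nat.Coprime.pow_right e (Nat.Coprime.symm (Nat.coprime_two_left.2 (CTX_odd z hz)))
        have hUI : UInv (CTX_p d) 0 κ := by
          have h31 : nn (3, 1) = 1 := by decide
          unfold UInv CTX_p
          rw [h31, if_pos (Nat.coprime_one_left d), pow_zero, one_mul, one_mul]
          have h3 := hU.1
          rw [hone (3, 1) (by rw [h31]; exact Nat.coprime_one_left q), one_mul] at h3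
          exact h3
        have hpr : ∀ z, Nat.Coprime (nn z) d → CTX_p d z = 1 := by
          intro z hz
          unfold CTX_p
          rw [if_pos hz]
        have h3 := h₂ d hd (CTX_p d) (CTX_isrc d) i κ τ hpr hκ0 hUI v
        have h4 : ∑ z ∈ FF v, HC (CTX_p d) 0 i κ z * nit τ (nn z) =
            ∑ z ∈ FF v, ξ z * (((N8 z).sign : ℂ) ^ i * Complex.exp (κ * yy z * Complex.I)) * nit τ (nn z) := by
          refine Finset.sum_congr rfl fun z hz => ?_
          have h5 : CTX_p d z = ξ z := by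
            unfold CTX_p
            by_cases h : Nat.Coprime (nn z) d
            · rw [if_pos h, hone z ((hcop z (hFd z hz).1).2 h)]
            · rw [if_neg h, hz0 z fun h' => h ((hcop z (hFd z hz).1).1 h')]
          unfold HC
          rw [h5, zero_mul, pow_zero]
          ring
        rw [h4] at h3
        refine h3.trans ?_
        have h5 : (d : ℝ) ^ 3 ≤ (q : ℝ) ^ 3 := pow_le_pow_left₀ (by positivity) hdq 3
        have h6 : C₂ * (d : ℝ) ^ 3 ≤ (C₁ + C₂) * (q : ℝ) ^ 3 := by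
          have h7 : C₂ * (d : ℝ) ^ 3 ≤ C₂ * (q : ℝ) ^ 3 := mul_le_mul_of_nonneg_left h5 hC₂.le
          nlinarith
        calc C₂ * (d : ℝ) ^ 3 * (1 + |κ| + |τ| * (1 + Real.log v)) * √(v : ℝ)
            = (C₂ * (d : ℝ) ^ 3) * ((1 + |κ| + |τ| * (1 + Real.log v)) * √(v : ℝ)) := by ring
          _ ≤ ((C₁ + C₂) * (q : ℝ) ^ 3) * ((1 + |κ| + |τ| * (1 + Real.log v)) * √(v : ℝ)) := mul_le_mul_of_nonneg_right h6 hnn
          _ = _ := by ring
    refine hbd.trans ?_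
    rw [le_div_iff₀ (by positivity)]
    have hd3 : (q : ℝ) ^ 3 ≤ Real.log v ^ (6 * B) := by
      calc (q : ℝ) ^ 3 ≤ (Real.log x ^ B) ^ 3 := pow_le_pow_left₀ (by positivity) hqB 3
        _ ≤ ((Real.log v ^ 2) ^ B) ^ 3 :=
          pow_le_pow_left₀ (by positivity) (pow_le_pow_left₀ (by linarith) hLdl B) 3
        _ = Real.log v ^ (6 * B) := by
          rw [← pow_mul, ← pow_mul]
          congr 1
          ring
    have hLA : Real.log x ^ A ≤ Real.log v ^ (2 * A) := by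
      calc Real.log x ^ A ≤ (Real.log v ^ 2) ^ A := pow_le_pow_left₀ (by linarith) hLdl A
        _ = Real.log v ^ (2 * A) := by rw [← pow_mul]
    have hmid : 1 + |κ| + |τ| * (1 + Real.log v) ≤ (v : ℝ) ^ (1 / 4 : ℝ) * (3 + Real.log v) := by
      have e1 : |τ| * (1 + Real.log v) ≤ (v : ℝ) ^ (1 / 4 : ℝ) * (1 + Real.log v) :=
        mul_le_mul_of_nonneg_right hτ' (by linarith)
      nlinarith
    have hsq : √(v : ℝ) = (v : ℝ) ^ (1 / 4 : ℝ) * (v : ℝ) ^ (1 / 4 : ℝ) := by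
      rw [Real.sqrt_eq_rpow, ← Real.rpow_add hvpos]
      norm_num
    have hv4 : (v : ℝ) ^ (1 / 4 : ℝ) * (v : ℝ) ^ (1 / 4 : ℝ) * (v : ℝ) ^ (1 / 4 : ℝ) * (v : ℝ) ^ (1 / 4 : ℝ) = v := by
      rw [← Real.rpow_add hvpos, ← Real.rpow_add hvpos, ← Real.rpow_add hvpos]
      norm_num
    have hb := hbig v hvv₀
    have hmid0 : 0 ≤ 1 + |κ| + |τ| * (1 + Real.log v) := by positivity
    calc (C₁ + C₂) * (q : ℝ) ^ 3 * (1 + |κ| + |τ| * (1 + Real.log v)) * √(v : ℝ) * Real.log x ^ A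
        ≤ (C₁ + C₂) * Real.log v ^ (6 * B) * ((v : ℝ) ^ (1 / 4 : ℝ) * (3 + Real.log v)) * √(v : ℝ) *
            Real.log v ^ (2 * A) := by
          gcongr
      _ = ((C₁ + C₂) * Real.log v ^ (6 * B + 2 * A) * (3 + Real.log v)) *
            ((v : ℝ) ^ (1 / 4 : ℝ) * (v : ℝ) ^ (1 / 4 : ℝ) * (v : ℝ) ^ (1 / 4 : ℝ)) := by
          rw [hsq, pow_add]
          ring
      _ ≤ (v : ℝ) ^ (1 / 4 : ℝ) * ((v : ℝ) ^ (1 / 4 : ℝ) * (v : ℝ) ^ (1 / 4 : ℝ) * (v : ℝ) ^ (1 / 4 : ℝ)) :=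
          mul_le_mul_of_nonneg_right hb (by positivity)
      _ = v := by linear_combination hv4

end Pool.Agent.YB
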