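import Pool.Agent.helper36.YB.Spec

/-!
# Project yb (MP_ad8ced_nt), row MWI (helper16): from primes to the Moebius function
-/

set_option autoImplicit false

open Finset
open Pool.Agent.FI Pool.Agent.HK Pool.Agent.BP
open Pool.Agent.CH (nit rgh ll2)
open Pool.Agent.SK (tr0 Th)

noncomputable section

namespace Pool.Agent.YB

open ArithmeticFunction in
private theorem MWI_mulog (n : ℕ) : (moebius n : ℝ) * Real.log n = -∑ d ∈ n.divisorsAntidiagonal, vonMangoldt d.1 * (moebius d.2 : ℝ) := by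
  let f : ArithmeticFunction ℝ := ⟨fun n => (moebius n : ℝ) * Real.log n, by simp⟩
  have h1 : f * ((zeta : ArithmeticFunction ℕ) : ArithmeticFunction ℝ) = -vonMangoldt := by
    ext m
    rw [coe_mul_zeta_apply]
    have h2 : ∑ i ∈ m.divisors, f i = ∑ d ∈ m.divisors, (moebius d : ℝ) * (log : ArithmeticFunction ℝ) d := rfl
    rw [h2, sum_moebius_mul_log_eq]
    rfl
  have h3 : f = -vonMangoldt * ((moebius : ArithmeticFunction ℤ) : ArithmeticFunction ℝ) := by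
    rw [← h1, mul_assoc, coe_zeta_mul_coe_moebius, mul_one]
  have h4 : f n = (moebius n : ℝ) * Real.log n := rfl
  rw [← h4, h3, mul_apply, ← Finset.sum_neg_distrib]
  refine Finset.sum_congr rfl fun d _ => ?_
  change -vonMangoldt d.1 * (moebius d.2 : ℝ) = -(vonMangoldt d.1 * (moebius d.2 : ℝ))
  ring

open ArithmeticFunction in
private theorem MWI_mu1 (n : ℕ) : ∑ d ∈ n.divisorsAntidiagonal, (moebius d.2 : ℝ) = if n = 1 then 1 else 0 := by
  have h1 : (((zeta : ArithmeticFunction ℕ) : ArithmeticFunction ℝ) * ((moebius : ArithmeticFunction ℤ) : ArithmeticFunction ℝ)) n =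
      (1 : ArithmeticFunction ℝ) n := by rw [coe_zeta_mul_coe_moebius]
  rw [coe_zeta_mul_apply, one_apply] at h1
  rw [← h1, Nat.sum_divisorsAntidiagonal' (f := fun _ d => ((moebius d : ℤ) : ℝ))]
  rfl

/-- the arithmetic function `m ↦ (Λ m - c) a m` for `m > Y` -/
private def MWI_H (a : ℕ → ℂ) (c : ℝ) (Y : ℕ) : ArithmeticFunction ℂ :=
  ⟨fun m => if Y < m then ((ArithmeticFunction.vonMangoldt m : ℂ) - c) * a m else 0, by simp⟩

private def MWI_g (a : ℕ → ℂ) : ArithmeticFunction ℂ := ⟨mg a, by simp [mg]⟩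

private theorem MWI_conv (a : ℕ → ℂ) (c : ℝ) (ha : CM a) (n : ℕ) (hn : 0 < n) :
    (MWI_H a c 0 * MWI_g a) n = -(mg a n * Real.log n) - if n = 1 then (c : ℂ) else 0 := by
  rw [ArithmeticFunction.mul_apply]
  have h1 : ∀ d ∈ n.divisorsAntidiagonal, MWI_H a c 0 d.1 * MWI_g a d.2 =
      a n * (((ArithmeticFunction.vonMangoldt d.1 * (ArithmeticFunction.moebius d.2 : ℝ) : ℝ) : ℂ) - c * ((ArithmeticFunction.moebius d.2 : ℝ) : ℂ)) := by
    intro d hd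
    rw [Nat.mem_divisorsAntidiagonal] at hd
    have h2 : 0 < d.1 := by
      rcases Nat.eq_zero_or_pos d.1 with h | h
      · rw [h, zero_mul] at hd
        omega
      · exact h
    have h3 : MWI_H a c 0 d.1 = ((ArithmeticFunction.vonMangoldt d.1 : ℂ) - c) * a d.1 := by
      change (if 0 < d.1 then ((ArithmeticFunction.vonMangoldt d.1 : ℂ) - c) * a d.1 else 0) = _
      rw [if_pos h2]
    have h4 : MWI_g a d.2 = mg a d.2 := rfl
    rw [h3, h4, ← hd.1, ha.2.2.1]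
    unfold mg
    push_cast
    ring
  rw [Finset.sum_congr rfl h1, ← Finset.mul_sum, Finset.sum_sub_distrib, ← Finset.mul_sum, ← Complex.ofReal_sum, ← Complex.ofReal_sum, MWI_mu1]
  have h5 := MWI_mulog n
  have h6 : ∑ d ∈ n.divisorsAntidiagonal, ArithmeticFunction.vonMangoldt d.1 * (ArithmeticFunction.moebius d.2 : ℝ) =
      -((ArithmeticFunction.moebius n : ℝ) * Real.log n) := by linarith
  rw [h6]
  unfold mg
  by_cases h : n = 1
  · rw [if_pos h, if_pos h, h, ha.2.1]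
    push_cast
    ring
  · rw [if_neg h, if_neg h]
    push_cast
    ring

/-- `∑ mg a n log n` -/
private theorem MWI_S2 (a : ℕ → ℂ) (c : ℝ) (ha : CM a) (u : ℕ) (hu : 0 < u) :
    ∑ n ∈ Ioc 0 u, mg a n * Real.log n = -(c : ℂ) - ∑ m ∈ Ioc 0 u, MWI_H a c 0 m * ∑ d ∈ Ioc 0 (u / m), mg a d := by
  have h1 := ArithmeticFunction.sum_Ioc_mul_eq_sum_sum (MWI_H a c 0) (MWI_g a) u
  have h2 : ∑ n ∈ Ioc 0 u, (MWI_H a c 0 * MWI_g a) n = -∑ n ∈ Ioc 0 u, mg a n * Real.log n - c := by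
    rw [Finset.sum_congr rfl fun n hn => MWI_conv a c ha n (mem_Ioc.1 hn).1, Finset.sum_sub_distrib, Finset.sum_neg_distrib,
      Finset.sum_ite_eq' (Ioc 0 u) 1 fun _ => (c : ℂ), if_pos (mem_Ioc.2 ⟨one_pos, hu⟩)]
  rw [h2] at h1
  have h3 : ∑ m ∈ Ioc 0 u, MWI_H a c 0 m * ∑ d ∈ Ioc 0 (u / m), (MWI_g a) d = ∑ m ∈ Ioc 0 u, MWI_H a c 0 m * ∑ d ∈ Ioc 0 (u / m), mg a d := rfl
  rw [h3] at h1
  rw [← h1]
  ring

private theorem MWI_Hs (a : ℕ → ℂ) (c : ℝ) (Y v : ℕ) (h : Y ≤ v) : ∑ m ∈ Ioc 0 v, MWI_H a c Y m =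
    ∑ m ∈ Ioc 0 v, ((ArithmeticFunction.vonMangoldt m : ℂ) - c) * a m - ∑ m ∈ Ioc 0 Y, ((ArithmeticFunction.vonMangoldt m : ℂ) - c) * a m := by
  have h1 := Finset.sum_Ioc_consecutive (fun m => ((ArithmeticFunction.vonMangoldt m : ℂ) - c) * a m) (Nat.zero_le Y) h
  have h2 := Finset.sum_Ioc_consecutive (fun m => MWI_H a c Y m) (Nat.zero_le Y) h
  have h3 : ∑ m ∈ Ioc 0 Y, MWI_H a c Y m = 0 := by
    refine Finset.sum_eq_zero fun m hm => ?_
    change (if Y < m then ((ArithmeticFunction.vonMangoldt m : ℂ) - c) * a m else 0) = 0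
    rw [if_neg (not_lt.2 (mem_Ioc.1 hm).2)]
  have h4 : ∑ m ∈ Ioc Y v, MWI_H a c Y m = ∑ m ∈ Ioc Y v, ((ArithmeticFunction.vonMangoldt m : ℂ) - c) * a m := by
    refine Finset.sum_congr rfl fun m hm => ?_
    change (if Y < m then ((ArithmeticFunction.vonMangoldt m : ℂ) - c) * a m else 0) = _
    rw [if_pos (mem_Ioc.1 hm).1]
  rw [← h1, ← h2, h3, h4]
  ring

private theorem MWI_Hz (a : ℕ → ℂ) (c : ℝ) (Y v : ℕ) (h : v ≤ Y) : ∑ m ∈ Ioc 0 v, MWI_H a c Y m = 0 := by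
  refine Finset.sum_eq_zero fun m hm => ?_
  change (if Y < m then ((ArithmeticFunction.vonMangoldt m : ℂ) - c) * a m else 0) = 0
  rw [if_neg (not_lt.2 ((mem_Ioc.1 hm).2.trans h))]

/-- splitting the second sum -/
private theorem MWI_T (a : ℕ → ℂ) (c : ℝ) (Y u : ℕ) (h : Y ≤ u) : ∑ m ∈ Ioc 0 u, MWI_H a c 0 m * ∑ d ∈ Ioc 0 (u / m), mg a d =
    ∑ m ∈ Ioc 0 Y, MWI_H a c 0 m * ∑ d ∈ Ioc 0 (u / m), mg a d + ∑ d ∈ Ioc 0 u, mg a d * ∑ m ∈ Ioc 0 (u / d), MWI_H a c Y m := by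
  have h1 : ∑ d ∈ Ioc 0 u, mg a d * ∑ m ∈ Ioc 0 (u / d), MWI_H a c Y m = ∑ m ∈ Ioc 0 u, MWI_H a c Y m * ∑ d ∈ Ioc 0 (u / m), mg a d := by
    have h2 := ArithmeticFunction.sum_Ioc_mul_eq_sum_sum (MWI_H a c Y) (MWI_g a) u
    have h3 := ArithmeticFunction.sum_Ioc_mul_eq_sum_sum (MWI_g a) (MWI_H a c Y) u
    rw [mul_comm (MWI_H a c Y)] at h2
    rw [h3] at h2
    exact h2
  rw [h1, ← Finset.sum_Ioc_consecutive _ (Nat.zero_le Y) h, ← Finset.sum_Ioc_consecutive (fun m => MWI_H a c Y m * _) (Nat.zero_le Y) h]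
  have h4 : ∑ m ∈ Ioc 0 Y, MWI_H a c Y m * ∑ d ∈ Ioc 0 (u / m), mg a d = 0 := by
    refine Finset.sum_eq_zero fun m hm => ?_
    have h5 : MWI_H a c Y m = 0 := by
      change (if Y < m then ((ArithmeticFunction.vonMangoldt m : ℂ) - c) * a m else 0) = 0
      rw [if_neg (not_lt.2 (mem_Ioc.1 hm).2)]
    rw [h5, zero_mul]
  have h6 : ∑ m ∈ Ioc Y u, MWI_H a c Y m * ∑ d ∈ Ioc 0 (u / m), mg a d = ∑ m ∈ Ioc Y u, MWI_H a c 0 m * ∑ d ∈ Ioc 0 (u / m), mg a d := by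
    refine Finset.sum_congr rfl fun m hm => ?_
    have h5 : MWI_H a c Y m = MWI_H a c 0 m := by
      change (if Y < m then ((ArithmeticFunction.vonMangoldt m : ℂ) - c) * a m else 0) = (if 0 < m then ((ArithmeticFunction.vonMangoldt m : ℂ) - c) * a m else 0)
      rw [if_pos (mem_Ioc.1 hm).1, if_pos (lt_of_le_of_lt (Nat.zero_le Y) (mem_Ioc.1 hm).1)]
    rw [h5]
  rw [h4, h6, zero_add]

private theorem MWI_mg1 (a : ℕ → ℂ) (ha : CM a) (n : ℕ) : ‖mg a n‖ ≤ 1 := by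
  unfold mg
  rw [norm_mul]
  refine mul_le_one₀ ?_ (norm_nonneg _) (ha.2.2.2 n)
  rw [Complex.norm_intCast]
  have h := ArithmeticFunction.abs_moebius_le_one (n := n)
  exact_mod_cast h

private theorem MWI_M1 (a : ℕ → ℂ) (ha : CM a) (u : ℕ) : ‖∑ n ∈ Ioc 0 u, mg a n‖ ≤ u := by
  refine (norm_sum_le _ _).trans ((Finset.sum_le_sum fun n _ => MWI_mg1 a ha n).trans ?_)
  simp

/-- the first sum -/
private theorem MWI_S1 (a : ℕ → ℂ) (u : ℕ) (hu : 1 ≤ u) : ‖∑ n ∈ Ioc 0 u, mg a n * ((Real.log u : ℂ) - Real.log n)‖ ≤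
    ∑ m ∈ Ico 1 u, ‖∑ n ∈ Ioc 0 m, mg a n‖ / m := by
  induction u, hu using Nat.le_induction with
  | base => simp
  | succ u hu ih =>
    rw [Finset.sum_Ioc_succ_top (Nat.zero_le u), Finset.sum_Ico_succ_top hu, sub_self, mul_zero, add_zero]
    have h1 : ∑ n ∈ Ioc 0 u, mg a n * ((Real.log ((u + 1 : ℕ) : ℝ) : ℂ) - Real.log n) =
        ∑ n ∈ Ioc 0 u, mg a n * ((Real.log u : ℂ) - Real.log n) + (∑ n ∈ Ioc 0 u, mg a n) * ((Real.log ((u + 1 : ℕ) : ℝ) - Real.log u : ℝ) : ℂ) := by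
      rw [Finset.sum_mul, ← Finset.sum_add_distrib]
      refine Finset.sum_congr rfl fun n _ => ?_
      push_cast
      ring
    rw [h1]
    refine (norm_add_le _ _).trans (add_le_add ih ?_)
    rw [norm_mul, Complex.norm_real, div_eq_mul_inv]
    refine mul_le_mul_of_nonneg_left ?_ (norm_nonneg _)
    have hu0 : (0 : ℝ) < u := by exact_mod_cast hu
    have h2 : Real.log ((u + 1 : ℕ) : ℝ) - Real.log u = Real.log (1 + (u : ℝ)⁻¹) := by
      rw [← Real.log_div (by positivity) hu0.ne']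
      congr 1
      push_cast
      field_simp
    rw [h2, Real.norm_eq_abs, abs_of_nonneg (Real.log_nonneg (by linarith [inv_pos.2 hu0]))]
    have h3 := Real.log_le_sub_one_of_pos (show (0 : ℝ) < 1 + (u : ℝ)⁻¹ by positivity)
    linarith

private theorem MWI_L4 (N : ℕ) (hN : 1 ≤ N) : ∑ m ∈ Ioc 0 N, ArithmeticFunction.vonMangoldt m / m ≤ 2 * Real.log N := by
  have hN0 : (0 : ℝ) < N := by exact_mod_cast hN
  have h1 : ∑ m ∈ Ioc 0 N, ArithmeticFunction.vonMangoldt m * ((N / m : ℕ) : ℝ) ≤ N * Real.log N := by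
    have h2 := ArithmeticFunction.sum_Ioc_mul_zeta_eq_sum ArithmeticFunction.vonMangoldt N
    rw [ArithmeticFunction.vonMangoldt_mul_zeta] at h2
    rw [← h2]
    refine (Finset.sum_le_sum fun n hn => ?_ : ∑ n ∈ Ioc 0 N, ArithmeticFunction.log n ≤ ∑ n ∈ Ioc 0 N, Real.log N).trans ?_
    · rw [ArithmeticFunction.log_apply]
      have h3 := mem_Ioc.1 hn
      exact Real.log_le_log (by exact_mod_cast h3.1) (by exact_mod_cast h3.2)
    · simp
  have h2 : ∑ m ∈ Ioc 0 N, ArithmeticFunction.vonMangoldt m / m * N ≤ 2 * ∑ m ∈ Ioc 0 N, ArithmeticFunction.vonMangoldt m * ((N / m : ℕ) : ℝ) := by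
    rw [Finset.mul_sum]
    refine Finset.sum_le_sum fun m hm => ?_
    have h3 := mem_Ioc.1 hm
    have hm0 : (0 : ℝ) < m := by exact_mod_cast h3.1
    have h4 : (N : ℝ) / m ≤ 2 * ((N / m : ℕ) : ℝ) := by
      have h5 : 1 ≤ N / m := (Nat.one_le_div_iff h3.1).2 h3.2
      have h6 : N < m * (N / m + 1) := Nat.lt_mul_div_succ N h3.1
      have h7 : (N : ℝ) < m * (((N / m : ℕ) : ℝ) + 1) := by exact_mod_cast h6
      have h8 : (1 : ℝ) ≤ ((N / m : ℕ) : ℝ) := by exact_mod_cast h5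
      rw [div_le_iff₀ hm0]
      nlinarith
    have h5 := ArithmeticFunction.vonMangoldt_nonneg (n := m)
    calc ArithmeticFunction.vonMangoldt m / m * N = ArithmeticFunction.vonMangoldt m * ((N : ℝ) / m) := by ring
      _ ≤ ArithmeticFunction.vonMangoldt m * (2 * ((N / m : ℕ) : ℝ)) := mul_le_mul_of_nonneg_left h4 h5
      _ = _ := by ring
  rw [← Finset.sum_mul] at h2
  have h3 : (∑ m ∈ Ioc 0 N, ArithmeticFunction.vonMangoldt m / m) * N ≤ (2 * Real.log N) * N := by linarith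
  exact le_of_mul_le_mul_right h3 hN0

private theorem MWI_har (N : ℕ) (hN : 1 ≤ N) : ∑ m ∈ Ioc 0 N, (1 : ℝ) / m ≤ 1 + Real.log N := by
  have h := harmonic_le_one_add_log N
  rw [harmonic_eq_sum_Icc] at h
  push_cast at h
  have e : Ioc 0 N = Icc 1 N := by
    ext m
    simp only [mem_Ioc, mem_Icc]
    omega
  rw [e]
  simpa only [one_div] using h

private theorem MWI_cnt (u : ℕ) (u₀ : ℝ) (h0 : 1 ≤ u₀) : ∑ m ∈ Ico 1 u, (if (m : ℝ) < u₀ then (1 : ℝ) else 0) ≤ u₀ := by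
  rw [← Finset.sum_filter, Finset.sum_const, nsmul_eq_mul, mul_one]
  have h1 : (Ico 1 u).filter (fun m : ℕ => (m : ℝ) < u₀) ⊆ Ico 1 ⌈u₀⌉₊ := by
    intro m hm
    rw [mem_filter, mem_Ico] at hm
    rw [mem_Ico]
    exact ⟨hm.1.1, Nat.lt_ceil.2 hm.2⟩
  have h2 := Finset.card_le_card h1
  rw [Nat.card_Ico] at h2
  have h3 : 1 ≤ ⌈u₀⌉₊ := Nat.one_le_ceil_iff.2 (by linarith)
  have h4 := Nat.ceil_lt_add_one (show (0 : ℝ) ≤ u₀ by linarith)
  have h5 : (((Ico 1 u).filter (fun m : ℕ => (m : ℝ) < u₀)).card : ℝ) ≤ ((⌈u₀⌉₊ - 1 : ℕ) : ℝ) := by exact_mod_cast h2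
  rw [Nat.cast_sub h3, Nat.cast_one] at h5
  linarith

private theorem MWI_fl (u m : ℕ) (hm : 0 < m) : (u : ℝ) / m - 1 ≤ ((u / m : ℕ) : ℝ) := by
  have h6 : u < m * (u / m + 1) := Nat.lt_mul_div_succ u hm
  have h7 : (u : ℝ) < m * (((u / m : ℕ) : ℝ) + 1) := by exact_mod_cast h6
  have hm0 : (0 : ℝ) < m := by exact_mod_cast hm
  have h8 : (u : ℝ) / m < ((u / m : ℕ) : ℝ) + 1 := by rw [div_lt_iff₀ hm0]; linarith
  linarith

private theorem MWI_step (A : ℕ) (x s : ℝ) (a : ℕ → ℂ) (c : ℝ) (ha : CM a) (hc : 0 ≤ c) (hc1 : c ≤ 1) (hs : 32 ≤ s) (hL : Real.log x = s ^ 2)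
    (hx : 0 < x) (Y : ℕ) (hY : Real.exp s ≤ Y) (hY1 : (Y : ℝ) ≤ Real.exp s + 1) (hE : 2 * (s ^ 2) ^ (A + 2) ≤ Real.exp s)
    (hG : ∀ y : ℕ, Real.exp s ≤ y → (y : ℝ) ≤ x → ‖∑ n ∈ Ioc 0 y, ((ArithmeticFunction.vonMangoldt n : ℂ) - c) * a n‖ ≤ y / (s ^ 2) ^ (A + 2))
    (D u₀ : ℝ) (hD : 0 ≤ D) (hu1 : 1 ≤ u₀) (hu2 : √x ≤ u₀) (hP : ∀ v : ℕ, u₀ ≤ v → (v : ℝ) ≤ x → ‖∑ n ∈ Ioc 0 v, mg a n‖ ≤ D * v)
    (u : ℕ) (hu : u₀ * (2 * Y) ≤ u) (hux : (u : ℝ) ≤ x) : ‖∑ n ∈ Ioc 0 u, mg a n‖ ≤ (16 / s * D + 9 / (s ^ 2) ^ (A + 2)) * u := by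
  have hY0 : (1 : ℝ) ≤ Y := (Real.one_le_exp (by linarith)).trans hY
  have hYn : 1 ≤ Y := by exact_mod_cast hY0
  have huY : (Y : ℝ) ≤ u := by nlinarith
  have hYu : Y ≤ u := by exact_mod_cast huY
  have hu0 : (1 : ℝ) ≤ u := hY0.trans huY
  have hun : 1 ≤ u := by exact_mod_cast hu0
  have huu : u₀ ≤ u := by nlinarith
  set Lp : ℝ := (s ^ 2) ^ (A + 2) with hLp
  have hs2 : (1 : ℝ) ≤ s ^ 2 := by nlinarith
  have hLp1 : 1 ≤ Lp := one_le_pow₀ hs2
  have hLp0 : 0 < Lp := by linarith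
  -- the logarithm
  have hl1 : s ^ 2 / 2 ≤ Real.log u := by
    have h1 : Real.log (√x) ≤ Real.log u := Real.log_le_log (Real.sqrt_pos.2 hx) (hu2.trans huu)
    rw [Real.log_sqrt hx.le, hL] at h1
    exact h1
  have hl2 : Real.log u ≤ s ^ 2 := by
    rw [← hL]
    exact Real.log_le_log (by linarith) hux
  -- the first sum
  have hS1 : ‖∑ n ∈ Ioc 0 u, mg a n * ((Real.log u : ℂ) - Real.log n)‖ ≤ D * u + u₀ := by
    refine (MWI_S1 a u hun).trans ?_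
    have h1 : ∑ m ∈ Ico 1 u, ‖∑ n ∈ Ioc 0 m, mg a n‖ / m ≤ ∑ m ∈ Ico 1 u, (D + if (m : ℝ) < u₀ then (1 : ℝ) else 0) := by
      refine Finset.sum_le_sum fun m hm => ?_
      rw [mem_Ico] at hm
      have hm0 : (0 : ℝ) < m := by exact_mod_cast hm.1
      rw [div_le_iff₀ hm0]
      by_cases h : (m : ℝ) < u₀
      · rw [if_pos h]
        have h2 := MWI_M1 a ha m
        nlinarith
      · rw [if_neg h, add_zero]
        have h3 : (m : ℝ) ≤ u := by exact_mod_cast hm.2.le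
        exact hP m (not_lt.1 h) (h3.trans hux)
    refine h1.trans ?_
    rw [Finset.sum_add_distrib, Finset.sum_const, nsmul_eq_mul, Nat.card_Ico]
    have h2 := MWI_cnt u u₀ hu1
    have h3 : ((u - 1 : ℕ) : ℝ) ≤ u := by exact_mod_cast Nat.sub_le u 1
    nlinarith
  -- the part m ≤ Y
  have hT1 : ‖∑ m ∈ Ioc 0 Y, MWI_H a c 0 m * ∑ d ∈ Ioc 0 (u / m), mg a d‖ ≤ D * u * (1 + 3 * Real.log Y) := by
    refine (norm_sum_le _ _).trans ?_
    have h1 : ∑ m ∈ Ioc 0 Y, ‖MWI_H a c 0 m * ∑ d ∈ Ioc 0 (u / m), mg a d‖ ≤ ∑ m ∈ Ioc 0 Y, D * u * (ArithmeticFunction.vonMangoldt m / m + 1 / m) := by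
      refine Finset.sum_le_sum fun m hm => ?_
      rw [mem_Ioc] at hm
      have hm0 : (0 : ℝ) < m := by exact_mod_cast hm.1
      have hmY : (m : ℝ) ≤ Y := by exact_mod_cast hm.2
      have hv := ArithmeticFunction.vonMangoldt_nonneg (n := m)
      have h2 : ‖MWI_H a c 0 m‖ ≤ ArithmeticFunction.vonMangoldt m + 1 := by
        have h3 : MWI_H a c 0 m = ((ArithmeticFunction.vonMangoldt m : ℂ) - c) * a m := by
          change (if 0 < m then ((ArithmeticFunction.vonMangoldt m : ℂ) - c) * a m else 0) = _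
          rw [if_pos hm.1]
        rw [h3, norm_mul]
        have h4 : ‖((ArithmeticFunction.vonMangoldt m : ℂ) - c)‖ ≤ ArithmeticFunction.vonMangoldt m + 1 := by
          refine (norm_sub_le _ _).trans ?_
          rw [Complex.norm_real, Complex.norm_real, Real.norm_eq_abs, Real.norm_eq_abs, abs_of_nonneg hv, abs_of_nonneg hc]
          linarith
        calc ‖((ArithmeticFunction.vonMangoldt m : ℂ) - c)‖ * ‖a m‖ ≤ ‖((ArithmeticFunction.vonMangoldt m : ℂ) - c)‖ * 1 :=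
              mul_le_mul_of_nonneg_left (ha.2.2.2 m) (norm_nonneg _)
          _ ≤ _ := by rw [mul_one]; exact h4
      have h5 : u₀ ≤ ((u / m : ℕ) : ℝ) := by
        have h6 := MWI_fl u m hm.1
        have h7 : 2 * u₀ ≤ (u : ℝ) / m := by
          rw [le_div_iff₀ hm0]
          nlinarith
        linarith
      have h6 : ((u / m : ℕ) : ℝ) ≤ (u : ℝ) / m := Nat.cast_div_le
      have h7 : ((u / m : ℕ) : ℝ) ≤ x := le_trans (by exact_mod_cast Nat.div_le_self u m) hux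
      have h8 : ‖∑ d ∈ Ioc 0 (u / m), mg a d‖ ≤ D * ((u : ℝ) / m) := (hP _ h5 h7).trans (mul_le_mul_of_nonneg_left h6 hD)
      rw [norm_mul]
      calc ‖MWI_H a c 0 m‖ * ‖∑ d ∈ Ioc 0 (u / m), mg a d‖ ≤ (ArithmeticFunction.vonMangoldt m + 1) * (D * ((u : ℝ) / m)) :=
            mul_le_mul h2 h8 (norm_nonneg _) (by linarith)
        _ = D * u * (ArithmeticFunction.vonMangoldt m / m + 1 / m) := by ring
    refine h1.trans ?_
    rw [← Finset.mul_sum, Finset.sum_add_distrib]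
    refine mul_le_mul_of_nonneg_left ?_ (by positivity)
    have h2 := MWI_L4 Y hYn
    have h3 := MWI_har Y hYn
    linarith
  -- the part m > Y
  have hT2 : ‖∑ d ∈ Ioc 0 u, mg a d * ∑ m ∈ Ioc 0 (u / d), MWI_H a c Y m‖ ≤ 2 * u * (1 + s ^ 2) / Lp := by
    refine (norm_sum_le _ _).trans ?_
    have h1 : ∑ d ∈ Ioc 0 u, ‖mg a d * ∑ m ∈ Ioc 0 (u / d), MWI_H a c Y m‖ ≤ ∑ d ∈ Ioc 0 u, 2 * u / Lp * (1 / d) := by
      refine Finset.sum_le_sum fun d hd => ?_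
      rw [mem_Ioc] at hd
      have hd0 : (0 : ℝ) < d := by exact_mod_cast hd.1
      rw [norm_mul]
      have h2 : ‖∑ m ∈ Ioc 0 (u / d), MWI_H a c Y m‖ ≤ 2 * u / Lp * (1 / d) := by
        by_cases h : u / d ≤ Y
        · rw [MWI_Hz a c Y _ h, norm_zero]
          positivity
        · have h' := not_le.1 h
          have h3 : (Y : ℝ) ≤ ((u / d : ℕ) : ℝ) := by exact_mod_cast h'.le
          have h6 : ((u / d : ℕ) : ℝ) ≤ (u : ℝ) / d := Nat.cast_div_le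
          have h7 : ((u / d : ℕ) : ℝ) ≤ x := le_trans (by exact_mod_cast Nat.div_le_self u d) hux
          rw [MWI_Hs a c Y _ h'.le]
          refine (norm_sub_le _ _).trans ?_
          have h8 := hG (u / d) (hY.trans h3) h7
          have h9 := hG Y hY (huY.trans hux)
          have h10 : ((u / d : ℕ) : ℝ) / Lp ≤ (u : ℝ) / d / Lp := by gcongr
          have h11 : (Y : ℝ) / Lp ≤ (u : ℝ) / d / Lp := by
            have : (Y : ℝ) ≤ (u : ℝ) / d := h3.trans h6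
            gcongr
          have h12 : 2 * u / Lp * (1 / d) = (u : ℝ) / d / Lp + (u : ℝ) / d / Lp := by field_simp; ring
          rw [h12]
          linarith
      calc ‖mg a d‖ * ‖∑ m ∈ Ioc 0 (u / d), MWI_H a c Y m‖ ≤ 1 * (2 * u / Lp * (1 / d)) :=
            mul_le_mul (MWI_mg1 a ha d) h2 (norm_nonneg _) zero_le_one
        _ = _ := one_mul _
    refine h1.trans ?_
    rw [← Finset.mul_sum]
    have h3 := MWI_har u hun
    calc 2 * u / Lp * ∑ d ∈ Ioc 0 u, (1 : ℝ) / d ≤ 2 * u / Lp * (1 + s ^ 2) := mul_le_mul_of_nonneg_left (by linarith) (by positivity)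
      _ = _ := by ring
  -- together
  have hM : (∑ n ∈ Ioc 0 u, mg a n) * (Real.log u : ℂ) = ∑ n ∈ Ioc 0 u, mg a n * ((Real.log u : ℂ) - Real.log n) +
      (-(c : ℂ) - (∑ m ∈ Ioc 0 Y, MWI_H a c 0 m * ∑ d ∈ Ioc 0 (u / m), mg a d + ∑ d ∈ Ioc 0 u, mg a d * ∑ m ∈ Ioc 0 (u / d), MWI_H a c Y m)) := by
    rw [← MWI_T a c Y u hYu, ← MWI_S2 a c ha u hun, Finset.sum_mul, ← Finset.sum_add_distrib]
    refine Finset.sum_congr rfl fun n _ => ?_
    ring
  have hl0 : 0 ≤ Real.log u := Real.log_nonneg hu0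
  have hMn : ‖∑ n ∈ Ioc 0 u, mg a n‖ * Real.log u ≤ (D * u + u₀) + (1 + (D * u * (1 + 3 * Real.log Y) + 2 * u * (1 + s ^ 2) / Lp)) := by
    have h1 : ‖∑ n ∈ Ioc 0 u, mg a n‖ * Real.log u = ‖(∑ n ∈ Ioc 0 u, mg a n) * (Real.log u : ℂ)‖ := by
      rw [norm_mul, Complex.norm_real, Real.norm_eq_abs, abs_of_nonneg hl0]
    rw [h1, hM]
    refine (norm_add_le _ _).trans (add_le_add hS1 ?_)
    refine (norm_sub_le _ _).trans (add_le_add ?_ ((norm_add_le _ _).trans (add_le_add hT1 hT2)))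
    rw [norm_neg, Complex.norm_real, Real.norm_eq_abs, abs_of_nonneg hc]
    exact hc1
  have hlY : Real.log Y ≤ s + 1 := by
    have h1 : (Y : ℝ) ≤ Real.exp (s + 1) := by
      refine hY1.trans ?_
      rw [Real.exp_add]
      have h2 := Real.add_one_le_exp (1 : ℝ)
      have h3 := Real.one_le_exp (show 0 ≤ s by linarith)
      nlinarith
    have h2 := Real.log_le_log (by linarith) h1
    rwa [Real.log_exp] at h2
  have hsm : u₀ + 1 ≤ u / (2 * Lp) := by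
    have h1 : 2 * Lp ≤ Y := hE.trans hY
    rw [le_div_iff₀ (by positivity)]
    calc (u₀ + 1) * (2 * Lp) ≤ (2 * u₀) * Y := mul_le_mul (by linarith) h1 (by positivity) (by positivity)
      _ = u₀ * (2 * Y) := by ring
      _ ≤ u := hu
  have hDu : 0 ≤ D * u := by positivity
  have hfin : ‖∑ n ∈ Ioc 0 u, mg a n‖ * (s ^ 2 / 2) ≤ ((16 / s * D + 9 / Lp) * u) * (s ^ 2 / 2) := by
    have h1 : ‖∑ n ∈ Ioc 0 u, mg a n‖ * (s ^ 2 / 2) ≤ ‖∑ n ∈ Ioc 0 u, mg a n‖ * Real.log u := mul_le_mul_of_nonneg_left hl1 (norm_nonneg _)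
    have h2 : ((16 / s * D + 9 / Lp) * u) * (s ^ 2 / 2) = 8 * s * (D * u) + 9 * (u * s ^ 2 / (2 * Lp)) := by
      have hs0 : s ≠ 0 := by linarith
      have e1 : s ^ 2 / s = s := by rw [pow_two, mul_div_assoc, div_self hs0, mul_one]
      calc ((16 / s * D + 9 / Lp) * u) * (s ^ 2 / 2) = 8 * (s ^ 2 / s) * (D * u) + 9 * (u * s ^ 2 / (2 * Lp)) := by ring
        _ = _ := by rw [e1]
    rw [h2]
    refine h1.trans (hMn.trans ?_)
    have h3 : D * u + D * u * (1 + 3 * Real.log Y) ≤ 8 * s * (D * u) := by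
      have h4 : 1 + (1 + 3 * Real.log Y) ≤ 8 * s := by linarith
      nlinarith
    have h4 : 2 * u * (1 + s ^ 2) / Lp ≤ 8 * (u * s ^ 2 / (2 * Lp)) := by
      rw [show 8 * (u * s ^ 2 / (2 * Lp)) = (4 * u * s ^ 2) / Lp by ring]
      refine div_le_div_of_nonneg_right ?_ hLp0.le
      have h5 : (u : ℝ) * 1 ≤ u * s ^ 2 := mul_le_mul_of_nonneg_left hs2 (by linarith)
      nlinarith
    have h5 : (u : ℝ) / (2 * Lp) ≤ u * s ^ 2 / (2 * Lp) := by
      gcongr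
      nlinarith
    linarith
  exact le_of_mul_le_mul_right hfin (by positivity)

private theorem MWI_ev (A : ℕ) : ∃ s₀ : ℝ, 32 ≤ s₀ ∧ ∀ s : ℝ, s₀ ≤ s → 2 * (s ^ 2) ^ (A + 2) ≤ Real.exp s ∧
    (16 / s) ^ (2 * A + 1) + 18 / (s ^ 2) ^ (A + 2) ≤ 1 / (s ^ 2) ^ A ∧
    (2 * (Real.exp s + 1)) ^ (2 * A + 1) * (s ^ 2) ^ A ≤ Real.exp (s ^ 2 / 2) := by
  have h1 : ∀ᶠ s : ℝ in Filter.atTop, s ^ (2 * (A + 2)) * Real.exp (-s) < 1 / 2 :=
    (Real.tendsto_pow_mul_exp_neg_atTop_nhds_zero (2 * (A + 2))).eventually (gt_mem_nhds (by norm_num))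
  obtain ⟨b, hb⟩ := Filter.eventually_atTop.1 h1
  set K : ℕ := 2 * A + 1 with hK
  refine ⟨max b (max 32 (max (2 * 16 ^ K) (2 * (3 * K + 1)))), (le_max_left _ _).trans (le_max_right _ _), fun s hs => ?_⟩
  have hsb : b ≤ s := (le_max_left _ _).trans hs
  have hs1 : 32 ≤ s := ((le_max_left _ _).trans (le_max_right _ _)).trans hs
  have hs2 : 2 * 16 ^ K ≤ s := (((le_max_left _ _).trans (le_max_right _ _)).trans (le_max_right _ _)).trans hs
  have hs3 : 2 * (3 * (K : ℝ) + 1) ≤ s := (((le_max_right _ _).trans (le_max_right _ _)).trans (le_max_right _ _)).trans hs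
  have hs0 : 0 < s := by linarith
  have e1 : 2 * (s ^ 2) ^ (A + 2) ≤ Real.exp s := by
    have h2 := hb s hsb
    rw [Real.exp_neg, ← div_eq_mul_inv, div_lt_iff₀ (Real.exp_pos s)] at h2
    rw [← pow_mul]
    linarith
  refine ⟨e1, ?_, ?_⟩
  · have h3 : (16 / s) ^ K = 16 ^ K / s / (s ^ 2) ^ A := by
      rw [div_pow, hK, pow_succ s, pow_mul s 2 A]
      field_simp
    have h4 : 18 / (s ^ 2) ^ (A + 2) = 18 / (s ^ 2) ^ 2 / (s ^ 2) ^ A := by
      rw [pow_add]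
      field_simp
    rw [h3, h4, ← add_div]
    gcongr
    have h5 : 16 ^ K / s ≤ 1 / 2 := by
      rw [div_le_iff₀ hs0]
      linarith
    have h6 : 18 / (s ^ 2) ^ 2 ≤ 1 / 2 := by
      rw [div_le_iff₀ (by positivity)]
      have h7 : (32 : ℝ) ^ 2 ≤ s ^ 2 := pow_le_pow_left₀ (by norm_num) hs1 2
      have h8 : ((32 : ℝ) ^ 2) ^ 2 ≤ (s ^ 2) ^ 2 := pow_le_pow_left₀ (by norm_num) h7 2
      norm_num at h8
      linarith
    linarith
  · have h2 : (s ^ 2) ^ A ≤ Real.exp s := by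
      refine le_trans ?_ e1
      have h3 : (s ^ 2) ^ A ≤ (s ^ 2) ^ (A + 2) := pow_le_pow_right₀ (by nlinarith) (by omega)
      have h4 : 0 ≤ (s ^ 2) ^ (A + 2) := by positivity
      linarith
    have h3 : 2 * (Real.exp s + 1) ≤ Real.exp (s + 2) := by
      have h4 : Real.exp (s + 2) = Real.exp s * (Real.exp 1 * Real.exp 1) := by rw [← Real.exp_add, ← Real.exp_add]; norm_num
      have h5 := Real.add_one_le_exp (1 : ℝ)
      have h6 := Real.one_le_exp hs0.le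
      have h7 : (4 : ℝ) ≤ Real.exp 1 * Real.exp 1 := by nlinarith
      rw [h4]
      nlinarith
    have h4 : (2 * (Real.exp s + 1)) ^ K ≤ Real.exp (K * (s + 2)) := by
      rw [Real.exp_nat_mul]
      exact pow_le_pow_left₀ (by positivity) h3 K
    calc (2 * (Real.exp s + 1)) ^ K * (s ^ 2) ^ A ≤ Real.exp (K * (s + 2)) * Real.exp s := mul_le_mul h4 h2 (by positivity) (Real.exp_pos _).le
      _ = Real.exp (K * (s + 2) + s) := by rw [Real.exp_add]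
      _ ≤ Real.exp (s ^ 2 / 2) := by
        refine Real.exp_le_exp.2 ?_
        have hK0 : (0 : ℝ) ≤ K := Nat.cast_nonneg K
        have h5 : (K : ℝ) * (s + 2) ≤ K * (3 * s) := mul_le_mul_of_nonneg_left (by linarith) hK0
        nlinarith

theorem MWI : MWI_stmt := by
  intro A
  obtain ⟨s₀, hs₀, hev⟩ := MWI_ev A
  refine ⟨Real.exp (s₀ ^ 2), fun x hx a c ha hc hc1 hH u hux => ?_⟩
  have hx0 : 0 < x := (Real.exp_pos _).trans_le hx
  have hL1 : s₀ ^ 2 ≤ Real.log x := (Real.le_log_iff_exp_le hx0).2 hx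
  set s : ℝ := √(Real.log x) with hs
  have hss : s₀ ≤ s := Real.le_sqrt_of_sq_le hL1
  have hL : Real.log x = s ^ 2 := (Real.sq_sqrt (le_trans (by positivity) hL1)).symm
  have hs32 : 32 ≤ s := hs₀.trans hss
  have hs0 : 0 < s := by linarith
  obtain ⟨e1, e2, e3⟩ := hev s hss
  rw [hL]
  set Y : ℕ := ⌈Real.exp s⌉₊ with hYd
  have hY : Real.exp s ≤ Y := Nat.le_ceil _
  have hY1 : (Y : ℝ) ≤ Real.exp s + 1 := (Nat.ceil_lt_add_one (Real.exp_pos _).le).le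
  have hY0 : (1 : ℝ) ≤ Y := (Real.one_le_exp hs0.le).trans hY
  have hG : ∀ y : ℕ, Real.exp s ≤ y → (y : ℝ) ≤ x → ‖∑ n ∈ Ioc 0 y, ((ArithmeticFunction.vonMangoldt n : ℂ) - c) * a n‖ ≤ y / (s ^ 2) ^ (A + 2) := by
    intro y h1 h2
    have h3 := hH y h1 h2
    rw [hL] at h3
    exact h3
  have hLp0 : (0 : ℝ) < (s ^ 2) ^ (A + 2) := by positivity
  have hx1 : 1 ≤ √x := by
    rw [Real.one_le_sqrt]
    exact (Real.one_le_exp (by positivity)).trans hx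
  -- induction
  have key : ∀ k : ℕ, ∀ v : ℕ, √x * (2 * Y) ^ k ≤ v → (v : ℝ) ≤ x → ‖∑ n ∈ Ioc 0 v, mg a n‖ ≤ ((16 / s) ^ k + 18 / (s ^ 2) ^ (A + 2)) * v := by
    intro k
    induction k with
    | zero =>
      intro v _ _
      refine (MWI_M1 a ha v).trans ?_
      rw [pow_zero]
      have h1 : 0 ≤ 18 / (s ^ 2) ^ (A + 2) := by positivity
      have h2 : (0 : ℝ) ≤ v := Nat.cast_nonneg v
      nlinarith
    | succ k ih =>
      intro v hv hvx
      have h1 : (1 : ℝ) ≤ (2 * Y) ^ k := one_le_pow₀ (by linarith)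
      have h2 := MWI_step A x s a c ha hc hc1 hs32 hL hx0 Y hY hY1 e1 hG ((16 / s) ^ k + 18 / (s ^ 2) ^ (A + 2)) (√x * (2 * Y) ^ k)
        (by positivity) (by nlinarith) (by nlinarith) ih v (by rw [mul_assoc, ← pow_succ]; exact hv) hvx
      refine h2.trans (mul_le_mul_of_nonneg_right ?_ (Nat.cast_nonneg v))
      have h3 : 16 / s * (18 / (s ^ 2) ^ (A + 2)) + 9 / (s ^ 2) ^ (A + 2) ≤ 18 / (s ^ 2) ^ (A + 2) := by
        have h4 : 16 / s ≤ 1 / 2 := by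
          rw [div_le_iff₀ hs0]
          linarith
        have h5 : 0 ≤ 18 / (s ^ 2) ^ (A + 2) := by positivity
        have h6 : 9 / (s ^ 2) ^ (A + 2) = 1 / 2 * (18 / (s ^ 2) ^ (A + 2)) := by ring
        rw [h6]
        nlinarith
      calc 16 / s * ((16 / s) ^ k + 18 / (s ^ 2) ^ (A + 2)) + 9 / (s ^ 2) ^ (A + 2)
          = (16 / s) ^ (k + 1) + (16 / s * (18 / (s ^ 2) ^ (A + 2)) + 9 / (s ^ 2) ^ (A + 2)) := by rw [pow_succ]; ring
        _ ≤ _ := by linarith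
  have hxe : x = √x * √x := (Real.mul_self_sqrt hx0.le).symm
  have hsq : √x = Real.exp (s ^ 2 / 2) := by
    rw [← hL, Real.sqrt_eq_rpow, Real.rpow_def_of_pos hx0]
    congr 1
    ring
  by_cases hc2 : √x * (2 * Y) ^ (2 * A + 1) ≤ u
  · have h1 := key (2 * A + 1) u hc2 hux
    calc ‖∑ n ∈ Ioc 0 u, mg a n‖ ≤ ((16 / s) ^ (2 * A + 1) + 18 / (s ^ 2) ^ (A + 2)) * u := h1
      _ ≤ 1 / (s ^ 2) ^ A * x := mul_le_mul e2 hux (Nat.cast_nonneg u) (by positivity)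
      _ = x / (s ^ 2) ^ A := by ring
  · have h1 := not_le.1 hc2
    refine (MWI_M1 a ha u).trans (h1.le.trans ?_)
    rw [le_div_iff₀ (by positivity)]
    have h2 : (2 * (Y : ℝ)) ^ (2 * A + 1) ≤ (2 * (Real.exp s + 1)) ^ (2 * A + 1) := pow_le_pow_left₀ (by positivity) (by linarith) _
    calc √x * (2 * Y) ^ (2 * A + 1) * (s ^ 2) ^ A ≤ √x * ((2 * (Real.exp s + 1)) ^ (2 * A + 1) * (s ^ 2) ^ A) := by
          rw [mul_assoc]
          gcongr
      _ ≤ √x * √x := by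
          rw [hsq] at *
          exact mul_le_mul_of_nonneg_left e3 (Real.exp_pos _).le
      _ = x := hxe.symm

end Pool.Agent.YB
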